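import Pool.Agent.LibStar4.LowB

/-!
Q1, lower bounds: the problem whether a formula has exactly one solution reduces to STAR, and every
problem in the class `∀ℝ` reduces to that problem, so STAR is hard for `∀ℝ`.

Quantifier-free formulas (`Fml`), their codes and the problem `STAR` are defined in
`Pool.Agent.LibStar4.Syntax`, the class `∀ℝ` (`InA`) and the problem `UNIQ` in
`Pool.Agent.LibStar4.Low`, polynomial-time many-one reductions in
`Pool.Agent.LibComplexity.Machine`.
-/

open Pool.Agent.LibComplexity Pool.Agent.LibStar4

namespace Pool.Agent.Results.MP_f3c4e8_lc.LowerBounds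

/-- The problem of the unique solution reduces to STAR and is hard for `∀ℝ`. -/
theorem result : PolyRed UNIQ STAR ∧ ∀ L, InA L → PolyRed L UNIQ ∧ PolyRed L STAR :=
  ⟨uniq_red, fun _ hL => ⟨redTrans hL trueA_red, redTrans (redTrans hL trueA_red) uniq_red⟩⟩

end Pool.Agent.Results.MP_f3c4e8_lc.LowerBounds
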