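import Pool.Agent.LibStar4.Comp
import Pool.Agent.LibStar4.LowD

/-!
Q1: the problem STAR (is a given semialgebraic set star-shaped?) lies in the class `∀∃ℝ`, for
arbitrary semialgebraic sets. As it also lies in `∃∀ℝ`, it can be complete for `∃∀ℝ` only if the
classes `∃∀ℝ` and `∀∃ℝ` coincide.

Quantifier-free formulas (`Fml`), their codes, the problem `STAR` and the classes `InEA` (`∃∀ℝ`) and
`InAE` (`∀∃ℝ`) are defined in `Pool.Agent.LibStar4.Syntax`, polynomial-time many-one reductions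
(`PolyRed`) in `Pool.Agent.LibComplexity.Machine`.
-/

open Pool.Agent.LibComplexity Pool.Agent.LibStar4

namespace Pool.Agent.Results.MP_f3c4e8_lc.StarForallExists

/-- STAR lies in `∃∀ℝ` and in `∀∃ℝ`; if STAR is hard for `∃∀ℝ`, then `∃∀ℝ = ∀∃ℝ`. -/
theorem result :
    (InEA STAR ∧ InAE STAR) ∧
      ((∀ L, InEA L → PolyRed L STAR) → ∀ L, InEA L ↔ InAE L) :=
  ⟨⟨star_inEA, star_inAE⟩, collapse⟩

end Pool.Agent.Results.MP_f3c4e8_lc.StarForallExists
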